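import Pool.Agent.TH455.C4

set_option autoImplicit false

/-!
The maximum of the list packing number over planar triangle-free graphs is four.
-/

namespace Pool.Agent.Results.MP_be0db5_co.MaxFour

open Pool.Agent.TH455
open Pool.Agent.H239R2.Planar (HasStraightLineDrawing)

/-- The maximum of the list packing number over all finite triangle-free graphs with a
straight-line drawing in the plane is `4`; the upper bound also holds for all finite triangle-free
graphs without `K₅` and `K₃,₃` minors. -/
theorem result :
    IsGreatest {k : ℕ | ∃ (V : Type) (_ : Fintype V) (G : SimpleGraph V),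
      HasStraightLineDrawing G ∧ G.CliqueFree 3 ∧ listPackingNumber G = k} 4 ∧
    ∀ (V : Type) [Fintype V] (G : SimpleGraph V), HasStraightLineDrawing G ∨ NoKMinor G →
      G.CliqueFree 3 → ListPackable G 4 := by
  have up : ∀ (V : Type) [Fintype V] (G : SimpleGraph V), HasStraightLineDrawing G ∨ NoKMinor G →
      G.CliqueFree 3 → ListPackable G 4 := by
    intro V _ G hG hfree
    exact listPackable_of_sparse G (planar_free_sparse (Or.inr hG) hfree)
  refine ⟨⟨?_, ?_⟩, up⟩
  · refine ⟨Fin 15, inferInstance, Ex15.G, Ex15.drawing, Ex15.triangle_free, ?_⟩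
    apply sInf_eq_four
    · exact ⟨by norm_num, up _ _ (Or.inl Ex15.drawing) Ex15.triangle_free⟩
    · rintro ⟨h, _⟩; omega
    · rintro ⟨_, h⟩; exact Ex15.no1 h
    · rintro ⟨_, h⟩; exact Ex15.no2 h
    · rintro ⟨_, h⟩; exact Ex15.no3 h
  · rintro k ⟨V, _, G, h1, h2, rfl⟩
    exact listPackingNumber_le (by norm_num) (up V G (Or.inl h1) h2)

end Pool.Agent.Results.MP_be0db5_co.MaxFour
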